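import Pool.Agent.Helper61.NW.Goals2

/-!
# Project NW+, the numbering of the lines
-/

set_option autoImplicit false

namespace Pool.Agent.Helper6.NW

open Pool.Agent.Helper52.Wq2
open Pool.Agent.Helper61.NW

universe u

section

variable {V : Type u} (φ : Equiv.Perm V) (X : V → ℤ) (H : ℤ)

theorem X_zpow (hφ : ∀ v, X (φ v) = X v + H) (i : ℤ) (v : V) : X ((φ ^ i) v) = X v + i * H := by
  induction i using Int.induction_on with
  | zero => simp
  | succ n ih =>
    rw [add_comm, zpow_add, zpow_one, Equiv.Perm.mul_apply, hφ, ih]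
    ring
  | pred n ih =>
    have h1 : φ ((φ ^ (-(n : ℤ) - 1)) v) = (φ ^ (-(n : ℤ))) v := by
      rw [← Equiv.Perm.mul_apply, ← zpow_one_add]
      congr 2
      ring
    have h2 := hφ ((φ ^ (-(n : ℤ) - 1)) v)
    rw [h1, ih] at h2
    linarith

/-- The base points of the lines. -/
def Bs : Set V := {v | 0 ≤ X v ∧ X v < H}

theorem base_mem (hH : 0 < H) (hφ : ∀ v, X (φ v) = X v + H) (v : V) :
    (φ ^ (-(X v / H))) v ∈ Bs X H := by
  have h1 := X_zpow φ X H hφ (-(X v / H)) v
  have h2 := Int.emod_nonneg (X v) hH.ne'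
  have h3 := Int.emod_lt_of_pos (X v) hH
  have h4 := Int.emod_add_mul_ediv (X v) H
  refine ⟨?_, ?_⟩ <;> rw [h1] <;> nlinarith

/-- The coordinates. -/
noncomputable def coord (hH : 0 < H) (hφ : ∀ v, X (φ v) = X v + H) : V ≃ ℤ × Bs X H where
  toFun v := (X v / H, ⟨_, base_mem φ X H hH hφ v⟩)
  invFun z := (φ ^ z.1) z.2
  left_inv v := by
    change (φ ^ (X v / H)) ((φ ^ (-(X v / H))) v) = v
    rw [← Equiv.Perm.mul_apply, ← zpow_add, add_neg_cancel, zpow_zero, Equiv.Perm.one_apply]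
  right_inv := by
    rintro ⟨i, b, hb⟩
    have h1 := X_zpow φ X H hφ i b
    have h2 : X ((φ ^ i) b) / H = i := by
      rw [h1, Int.add_mul_ediv_right _ _ hH.ne', Int.ediv_eq_zero_of_lt hb.1 hb.2, zero_add]
    refine Prod.ext h2 (Subtype.ext ?_)
    change (φ ^ (-(X ((φ ^ i) b) / H))) ((φ ^ i) b) = b
    rw [h2, ← Equiv.Perm.mul_apply, ← zpow_add, neg_add_cancel, zpow_zero, Equiv.Perm.one_apply]

end

theorem lsys_of {V : Type u} (G : SimpleGraph V) (φ : Equiv.Perm V) (X : V → ℤ) (H : ℤ) (m : ℕ)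
    [Nonempty V] (hH : 0 < H) (hm : 0 < m) (hφ : ∀ v, X (φ v) = X v + H)
    (hfin : {v | 0 ≤ X v ∧ X v < H}.Finite) (hstep : ∀ v, G.Adj v (φ v))
    (hedge : ∀ u v, G.Adj u v → |X v - X u| ≤ H) (hconn : Conn G Set.univ)
    (hper : ∀ u v, G.Adj u v ↔ G.Adj ((φ ^ m) u) ((φ ^ m) v))
    (htr : ∀ u v, ∃ (f : G ≃g G) (e : ℤ), (e = 1 ∨ e = -1) ∧ (∀ w, f (φ w) = (φ ^ e) (f w)) ∧
      ∃ i : ℤ, f u = (φ ^ i) v) :
    ∃ G' : SimpleGraph (ℤ × Fin {v | 0 ≤ X v ∧ X v < H}.ncard),
      Lsys {v | 0 ≤ X v ∧ X v < H}.ncard m G' ∧ Nonempty (G ≃g G') := by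
  classical
  have hBf : Finite (Bs X H) := hfin
  let κ : Bs X H ≃ Fin {v | 0 ≤ X v ∧ X v < H}.ncard :=
    (Finite.equivFin (Bs X H)).trans (finCongr (Nat.card_coe_set_eq (Bs X H)))
  let E : V ≃ ℤ × Fin {v | 0 ≤ X v ∧ X v < H}.ncard :=
    (coord φ X H hH hφ).trans (Equiv.prodCongr (Equiv.refl ℤ) κ)
  have hsymm : ∀ (a : ℤ) j, E.symm (a, j) = (φ ^ a) ((κ.symm j : Bs X H) : V) := fun a j => rfl
  have hfst : ∀ (a : ℤ) j, X (E.symm (a, j)) / H = a := by
    intro a j
    have h1 : E (E.symm (a, j)) = (a, j) := E.apply_symm_apply _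
    exact congrArg Prod.fst h1
  have hadd : ∀ (a k : ℤ) j, E.symm (a + k, j) = (φ ^ k) (E.symm (a, j)) := by
    intro a k j
    rw [hsymm, hsymm, ← Equiv.Perm.mul_apply, ← zpow_add, add_comm]
  let G' : SimpleGraph (ℤ × Fin {v | 0 ≤ X v ∧ X v < H}.ncard) := G.comap E.symm
  have hG' : ∀ x y, G'.Adj x y ↔ G.Adj (E.symm x) (E.symm y) := fun x y => Iff.rfl
  let I : G ≃g G' :=
    { toEquiv := E
      map_rel_iff' := by
        intro x y
        rw [hG']
        simp }
  have hI : ∀ v, I v = E v := fun v => rfl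
  have hIs : ∀ z, I.symm z = E.symm z := fun z => rfl
  refine ⟨G', ?_, ⟨I⟩⟩
  refine { npos := ?_, mpos := hm, step := ?_, near := ?_, per := ?_, conn := ?_, trans := ?_ }
  · obtain ⟨v⟩ := (inferInstance : Nonempty V)
    exact (Set.ncard_pos hfin).2 ⟨_, base_mem φ X H hH hφ v⟩
  · intro a j
    rw [hG', hadd a 1 j, zpow_one]
    exact hstep _
  · intro a b i j hab
    rw [hG'] at hab
    have h1 := hedge _ _ hab
    have ha := hfst a i
    have hb := hfst b j
    have ha1 := Int.emod_nonneg (X (E.symm (a, i))) hH.ne'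
    have ha2 := Int.emod_lt_of_pos (X (E.symm (a, i))) hH
    have ha3 := Int.emod_add_mul_ediv (X (E.symm (a, i))) H
    have hb1 := Int.emod_nonneg (X (E.symm (b, j))) hH.ne'
    have hb2 := Int.emod_lt_of_pos (X (E.symm (b, j))) hH
    have hb3 := Int.emod_add_mul_ediv (X (E.symm (b, j))) H
    rw [ha] at ha3
    rw [hb] at hb3
    rw [abs_le] at h1 ⊢
    constructor
    · by_contra hc
      push Not at hc
      have : a - b ≤ -2 := by omega
      nlinarith
    · by_contra hc
      push Not at hc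
      have : 2 ≤ a - b := by omega
      nlinarith
  · intro a b i j
    rw [hG', hG', hadd a m i, hadd b m j, zpow_natCast]
    exact hper _ _
  · obtain ⟨⟨v, -⟩, h2⟩ := hconn
    refine ⟨⟨E v, Set.mem_univ _⟩, ?_⟩
    intro A _ hA hcl z _
    obtain ⟨y, hy⟩ := hA
    have h3 := h2 (E ⁻¹' A) (Set.subset_univ _) ⟨E.symm y, by
      change E (E.symm y) ∈ A
      rwa [E.apply_symm_apply]⟩ (by
        intro a ha b _ hab
        refine hcl (E a) ha (E b) (Set.mem_univ _) ?_
        rw [hG', E.symm_apply_apply, E.symm_apply_apply]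
        exact hab) (Set.mem_univ (E.symm z))
    have h4 : E (E.symm z) ∈ A := h3
    rwa [E.apply_symm_apply] at h4
  · intro i j
    obtain ⟨f, e, he, hfe, i0, hi0⟩ := htr (E.symm (0, i)) (E.symm (0, j))
    have hee : e * e = 1 := by rcases he with rfl | rfl <;> norm_num
    have hfz : ∀ (a : ℤ) (w : V), f ((φ ^ a) w) = (φ ^ (e * a)) (f w) := by
      intro a
      induction a using Int.induction_on with
      | zero => intro w; simp
      | succ n ih =>
        intro w
        have h1 : (φ ^ ((n : ℤ) + 1)) w = φ ((φ ^ (n : ℤ)) w) := by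
          rw [← Equiv.Perm.mul_apply, ← zpow_one_add, add_comm]
        rw [h1, hfe, ih, ← Equiv.Perm.mul_apply, ← zpow_add]
        congr 2
        ring
      | pred n ih =>
        intro w
        have h1 : (φ ^ (-(n : ℤ))) w = φ ((φ ^ (-(n : ℤ) - 1)) w) := by
          rw [← Equiv.Perm.mul_apply, ← zpow_one_add]
          congr 2
          ring
        have h2 := ih w
        rw [h1, hfe] at h2
        have h3 : (φ ^ (-e)) ((φ ^ e) (f ((φ ^ (-(n : ℤ) - 1)) w))) =
            (φ ^ (-e)) ((φ ^ (e * -(n : ℤ))) (f w)) := by rw [h2]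
        rw [← Equiv.Perm.mul_apply, ← zpow_add, ← Equiv.Perm.mul_apply, ← zpow_add,
          neg_add_cancel, zpow_zero, Equiv.Perm.one_apply] at h3
        rw [h3]
        congr 2
        ring
    let c : Fin {v | 0 ≤ X v ∧ X v < H}.ncard → ℤ := fun k => (E (f (E.symm (0, k)))).1
    let τ₀ : Fin {v | 0 ≤ X v ∧ X v < H}.ncard → Fin {v | 0 ≤ X v ∧ X v < H}.ncard :=
      fun k => (E (f (E.symm (0, k)))).2
    have hE : ∀ k, f (E.symm (0, k)) = E.symm (c k, τ₀ k) := by
      intro k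
      exact (E.symm_apply_apply (f (E.symm (0, k)))).symm
    have hall : ∀ (a : ℤ) k, f (E.symm (a, k)) = E.symm (e * a + c k, τ₀ k) := by
      intro a k
      have h1 := hadd 0 a k
      rw [zero_add] at h1
      rw [h1, hfz, hE, add_comm, hadd]
    have hinj : Function.Injective τ₀ := by
      intro k k' hk
      have h1 : f (E.symm (e * (c k' - c k), k)) = f (E.symm (0, k')) := by
        rw [hall, hE, hk]
        have : e * (e * (c k' - c k)) + c k = c k' := by
          rw [← mul_assoc, hee]; ring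
        rw [this]
      have h2 := E.symm.injective (f.injective h1)
      exact congrArg Prod.snd h2
    let τ : Equiv.Perm (Fin {v | 0 ≤ X v ∧ X v < H}.ncard) :=
      Equiv.ofBijective τ₀ (Finite.injective_iff_bijective.1 hinj)
    have hτ : ∀ k, τ k = τ₀ k := fun k => rfl
    refine ⟨(I.symm.trans f).trans I, τ, e, c, he, ?_, ?_⟩
    · have h1 : E.symm (c i, τ₀ i) = E.symm (0 + i0, j) := by
        rw [← hE, hi0, hadd]
      have h2 := E.symm.injective h1
      exact congrArg Prod.snd h2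
    · intro a k
      change E (f (E.symm (a, k))) = _
      rw [hall, E.apply_symm_apply, hτ]

end Pool.Agent.Helper6.NW
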