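import Pool.Agent.Helper61.NW.Goals

/-!
# Project NW, packet CEN: infinite finitely generated nilpotent groups have central elements of
infinite order
-/

set_option autoImplicit false

namespace Pool.Agent.Helper6.NW

open Pool.Agent.Helper61.NW

universe u

/-- An infinite finitely generated abelian group has an element of infinite order (for a central
subgroup). -/
theorem exists_inf {G : Type u} [Group G] (K : Subgroup G) (hK : K ≤ Subgroup.center G)
    (hfg : Group.FG K) (hinf : Infinite K) :
    ∃ z : G, (∀ g, g * z = z * g) ∧ ∀ n : ℤ, z ^ n = 1 → n = 0 := by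
  let _ : CommGroup K := { (inferInstance : Group K) with
    mul_comm := fun a b => Subtype.ext ((Subgroup.mem_center_iff.1 (hK b.2)) a) }
  by_contra hcon
  have htor : IsMulTorsion K := by
    intro k
    by_contra hk
    refine hcon ⟨k, fun g => (Subgroup.mem_center_iff.1 (hK k.2)) g, fun n hn => ?_⟩
    by_contra hn0
    refine hk (isOfFinOrder_iff_zpow_eq_one.2 ⟨n, hn0, ?_⟩)
    exact Subtype.ext (by rw [Subgroup.coe_zpow, hn]; rfl)
  have : Group.FG K := hfg
  have hfin : Finite K := CommGroup.finite_of_fg_isMulTorsion K htor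
  exact not_finite K

theorem step {G : Type u} [Group G]
    (ih : Group.FG (G ⧸ Subgroup.center G) → Infinite (G ⧸ Subgroup.center G) →
      ∃ z : G ⧸ Subgroup.center G, (∀ g, g * z = z * g) ∧ ∀ n : ℤ, z ^ n = 1 → n = 0)
    (hfg : Group.FG G) (hinf : Infinite G) :
    ∃ z : G, (∀ g, g * z = z * g) ∧ ∀ n : ℤ, z ^ n = 1 → n = 0 := by
  have := hfg
  rcases finite_or_infinite (G ⧸ Subgroup.center G) with hf | hi
  · have hidx : (Subgroup.center G).FiniteIndex := Subgroup.finiteIndex_of_finite_quotient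
    have hZ : Group.FG (Subgroup.center G) := Subgroup.fg_of_index_ne_zero _
    refine exists_inf (Subgroup.center G) le_rfl hZ ?_
    by_contra hn
    rw [not_infinite_iff_finite] at hn
    have : Finite G := by
      have h1 := Subgroup.groupEquivQuotientProdSubgroup (s := Subgroup.center G)
      exact Finite.of_equiv _ h1.symm
    exact not_finite G
  · have hq : Group.FG (G ⧸ Subgroup.center G) := inferInstance
    obtain ⟨xq, hx1, hx2⟩ := ih hq hi
    obtain ⟨x, rfl⟩ := QuotientGroup.mk_surjective xq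
    have hc : ∀ g : G, x * g * x⁻¹ * g⁻¹ ∈ Subgroup.center G := by
      intro g
      rw [← QuotientGroup.eq_one_iff]
      have h1 := hx1 (g : G ⧸ Subgroup.center G)
      change (x : G ⧸ Subgroup.center G) * (g : G ⧸ Subgroup.center G) *
        (x : G ⧸ Subgroup.center G)⁻¹ * (g : G ⧸ Subgroup.center G)⁻¹ = 1
      rw [← h1]
      group
    have hcc : ∀ g y : G, y * (x * g * x⁻¹ * g⁻¹) = (x * g * x⁻¹ * g⁻¹) * y := fun g y =>
      Subgroup.mem_center_iff.1 (hc g) y
    let φ : G →* Subgroup.center G :=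
      { toFun := fun g => ⟨x * g * x⁻¹ * g⁻¹, hc g⟩
        map_one' := Subtype.ext (by simp)
        map_mul' := by
          intro g h
          refine Subtype.ext ?_
          change x * (g * h) * x⁻¹ * (g * h)⁻¹ = x * g * x⁻¹ * g⁻¹ * (x * h * x⁻¹ * h⁻¹)
          have h1 := hcc h g
          calc x * (g * h) * x⁻¹ * (g * h)⁻¹
              = x * g * x⁻¹ * ((x * h * x⁻¹ * h⁻¹)) * g⁻¹ := by group
            _ = x * g * x⁻¹ * g⁻¹ * (g * (x * h * x⁻¹ * h⁻¹)) * g⁻¹ := by group
            _ = x * g * x⁻¹ * g⁻¹ * ((x * h * x⁻¹ * h⁻¹) * g) * g⁻¹ := by rw [h1]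
            _ = x * g * x⁻¹ * g⁻¹ * (x * h * x⁻¹ * h⁻¹) := by group }
    let K : Subgroup G := φ.range.map (Subgroup.center G).subtype
    have hKle : K ≤ Subgroup.center G := by
      rintro _ ⟨y, -, rfl⟩
      exact y.2
    let ψ : G →* G := (Subgroup.center G).subtype.comp φ
    have hKr : K = ψ.range := by
      simp only [K, ψ, MonoidHom.range_comp]
    have hKfg : Group.FG K := by
      rw [hKr]
      exact Group.fg_range ψ
    rcases finite_or_infinite K with hKf | hKi
    · exfalso
      have he : ∀ g : G, (x * g * x⁻¹ * g⁻¹) ^ (Nat.card K) = 1 := by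
        intro g
        have hm : x * g * x⁻¹ * g⁻¹ ∈ K := ⟨φ g, ⟨g, rfl⟩, rfl⟩
        have h1 := pow_card_eq_one' (x := (⟨_, hm⟩ : K))
        have h2 := congrArg Subtype.val h1
        rwa [Subgroup.coe_pow] at h2
      have hpow : ∀ (g : G) (n : ℕ), x ^ n * g * (x ^ n)⁻¹ * g⁻¹ = (x * g * x⁻¹ * g⁻¹) ^ n := by
        intro g n
        induction n with
        | zero => simp
        | succ n ih =>
          have h1 := hcc g (x ^ n)
          have h3 : x ^ n * g * (x ^ n)⁻¹ * g⁻¹ = (x * g * x⁻¹ * g⁻¹) ^ n := ih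
          calc x ^ (n + 1) * g * (x ^ (n + 1))⁻¹ * g⁻¹
              = x ^ n * (x * g * x⁻¹ * g⁻¹) * g * (x ^ n)⁻¹ * g⁻¹ := by
                rw [pow_succ]; group
            _ = (x * g * x⁻¹ * g⁻¹) * (x ^ n * g * (x ^ n)⁻¹ * g⁻¹) := by rw [h1]; group
            _ = (x * g * x⁻¹ * g⁻¹) * (x * g * x⁻¹ * g⁻¹) ^ n := by rw [h3]
            _ = (x * g * x⁻¹ * g⁻¹) ^ (n + 1) := (pow_succ' _ _).symm
      have hcen : x ^ (Nat.card K) ∈ Subgroup.center G := by
        rw [Subgroup.mem_center_iff]
        intro g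
        have h1 := hpow g (Nat.card K)
        rw [he g] at h1
        have h2 : x ^ Nat.card K * g = g * x ^ Nat.card K := by
          have h4 : x ^ Nat.card K * g * (x ^ Nat.card K)⁻¹ = g := by
            rw [mul_inv_eq_one] at h1
            exact h1
          rw [mul_inv_eq_iff_eq_mul] at h4
          exact h4
        exact h2.symm
      have h5 : ((x : G ⧸ Subgroup.center G)) ^ ((Nat.card K : ℕ) : ℤ) = 1 := by
        rw [zpow_natCast, ← QuotientGroup.mk_pow]
        exact (QuotientGroup.eq_one_iff _).2 hcen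
      have h6 := hx2 _ h5
      have h7 : 0 < Nat.card K := Nat.card_pos
      omega
    · exact exists_inf K hKle hKfg hKi

theorem cen : CenStmt.{u} := by
  intro Γ _ hfg hinf hnil
  have := hnil
  refine Group.nilpotent_center_quotient_ind
    (P := fun G _ _ => Group.FG G → Infinite G →
      ∃ z : G, (∀ g, g * z = z * g) ∧ ∀ n : ℤ, z ^ n = 1 → n = 0) Γ ?_ ?_ hfg hinf
  · intro G _ _ _ hG
    exact (not_finite G).elim
  · intro G _ _ ih h1 h2
    exact step ih h1 h2

end Pool.Agent.Helper6.NW
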